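import Pool.Agent.Lib.MP_c0402d_ag.JA

/-!
# A `ℚbar`-bi-algebraic curve without arithmetic points

Let `f = 6 (2x + 1) (3x + 2) (x + 2) (3x² + 4x + 2)`. The hyperelliptic curves
`C_t : y² = f(v² + t)` of genus four with the differentials `ω_t = (2 v / y) dv`, `f(t) ≠ 0`, form an
irreducible closed algebraic curve `W` in the projectivised stratum `S_α`, `α = (2, 2, 1, 1)`, which
is defined over `ℚ` and which is bi-algebraic over `ℚbar`. No point of `W` is arithmetic. So the
answer to the question `Does every ℚbar-bi-algebraic subvariety of S_α contain an arithmetic point?`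
is negative.

`C_t` is the double cover, branched over the two points `(t, ± √f(t))`, of `C_0 : y² = f(x)`, whose
Jacobian is isogenous to the square of `E : Y² = X³ - X`. The relative periods of `ω_t` lie in
`ℚbar Om + ℤ (u₁ - √-2 u₂) / 12`, where `u₁`, `u₂` are elliptic logarithms of the images of
`(t, √f(t))` under two maps to `E`. An arithmetic point would have (by linear independence of elliptic
logarithms) torsion images `(X, *)` and `(X - 1, *)`, which is impossible by a 2-adic argument.
-/

set_option autoImplicit false

namespace Pool.Agent.Results.MP_c0402d_ag.NoArithmeticPoint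

open KaehlerDifferential Pool.Agent.Arith

theorem result : Fam.IsBialgebraicCurve {2, 2, 1, 1} ∧
    ∀ (L : Type) [Field L] [Algebra ℂ L] (t : ℂ) (ω : Ω[L⁄ℂ]), Fam.Member t ω →
      ¬ IsArithmetic ω :=
  ⟨fam_isBialgebraicCurve, fun _ _ _ _ _ h => not_arithmetic h⟩

end Pool.Agent.Results.MP_c0402d_ag.NoArithmeticPoint
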